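import Pool.Agent.H961.T3.Stm6

/-!
# Project MS (helper961), S_CIG from S_CIR and S_CIP (helper230)
-/

set_option autoImplicit false

namespace Pool.Agent.H230.MS.CIGt

open Finset Equiv Matrix Q292.LC
open Pool.Agent.H961.T2 Pool.Agent.H961.T3

theorem arith3 (ℓ C E F : ℝ) (m : ℕ) (h1 : 1 ≤ ℓ) (hC : C ≤ ℓ) (hE : 0 ≤ E) (hF : 0 ≤ F) :
    ℓ ^ m * (1 + E) + C * F ≤ ℓ ^ (m + 1) * (1 + E + F) := by
  have h0 : 1 ≤ ℓ ^ m := one_le_pow₀ h1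
  have e1 : ℓ ^ m ≤ ℓ ^ (m + 1) := pow_le_pow_right₀ h1 (Nat.le_succ m)
  have e2 : C ≤ ℓ ^ (m + 1) := by
    rw [pow_succ]
    nlinarith
  have e3 : ℓ ^ m * (1 + E) ≤ ℓ ^ (m + 1) * (1 + E) :=
    mul_le_mul_of_nonneg_right e1 (by linarith)
  have e4 : C * F ≤ ℓ ^ (m + 1) * F := mul_le_mul_of_nonneg_right e2 hF
  calc ℓ ^ m * (1 + E) + C * F ≤ ℓ ^ (m + 1) * (1 + E) + ℓ ^ (m + 1) * F := add_le_add e3 e4
    _ = ℓ ^ (m + 1) * (1 + E + F) := by ring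

theorem logC (d L K : ℕ) (C : ℝ) (hd : 1 ≤ d) (hL : 3 ≤ L) (hT : ⌈Real.exp (d * C)⌉₊ ≤ K)
    (hKL : K ≤ L ^ d) : C ≤ Real.log L := by
  have hK1 : Real.exp (d * C) ≤ K := (Nat.le_ceil _).trans (by exact_mod_cast hT)
  have h1 : Real.exp (d * C) ≤ (L : ℝ) ^ d := hK1.trans (by exact_mod_cast hKL)
  have h2 : d * C ≤ d * Real.log L := by
    have := Real.log_le_log (Real.exp_pos _) h1
    rwa [Real.log_exp, Real.log_pow] at this
  have hd0 : (0 : ℝ) < d := by exact_mod_cast hd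
  exact le_of_mul_le_mul_left h2 hd0

theorem cig (hCIR : S_CIR) (hCIP : S_CIP) : S_CIG := by
  intro d hd
  rcases Nat.lt_or_ge 2 d with h3 | h2
  · obtain ⟨m, hm⟩ := hCIR d h3
    refine ⟨m + 1, fun p => ?_⟩
    obtain ⟨C, T, hC, h⟩ := hm p
    refine ⟨max T ⌈Real.exp (d * C)⌉₊, ?_⟩
    intro L K _ hL hTK hKL hlog
    have hT : T ≤ K := (le_max_left _ _).trans hTK
    have hlogC : C ≤ Real.log L :=
      logC d L K C (by omega) hL ((le_max_right _ _).trans hTK) hKL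
    have hlog1 : 1 ≤ Real.log L := hC.trans hlogC
    have hmono : Real.log L ^ m ≤ Real.log L ^ (m + 1) := pow_le_pow_right₀ hlog1 (Nat.le_succ m)
    obtain ⟨q₀, hq⟩ := h L K hT hKL (hmono.trans hlog)
    refine ⟨q₀, fun q hqq σ hσ δ h1 h2 => ?_⟩
    obtain ⟨B, hB1, hB2, hB3⟩ := hq q hqq σ hσ δ h1 h2
    refine ⟨B, hB1, fun ω A hBA hInv w hw0 hw1 => ?_, fun wb hw0 hw1 hwb =>
      hB3 wb hw0 hw1 (hmono.trans hwb)⟩
    refine (hB2 ω A hBA hInv w hw0 hw1).trans ?_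
    unfold er
    exact arith3 _ _ _ _ m hlog1 hlogC (by positivity) (by positivity)
  · obtain rfl : d = 2 := le_antisymm h2 hd
    obtain ⟨m, hm⟩ := hCIP 2 le_rfl
    refine ⟨m, fun p => ?_⟩
    obtain ⟨T, h⟩ := hm p
    refine ⟨T, ?_⟩
    intro L K _ hL hTK hKL hlog
    obtain ⟨q₀, hq⟩ := h L K hL hTK hKL hlog
    refine ⟨q₀, fun q hqq σ hσ δ h1 h2 => ?_⟩
    obtain ⟨B, hB1, hB2, hB3⟩ := hq q hqq σ hσ δ h1 h2
    refine ⟨B, hB1, fun ω A hBA hInv w hw0 hw1 => ?_, hB3⟩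
    refine (hB2 ω A hBA hInv w hw0 hw1).trans ?_
    unfold er
    have hlog0 : 0 ≤ Real.log L := Real.log_nonneg (by exact_mod_cast (by omega : 1 ≤ L))
    refine mul_le_mul_of_nonneg_left ?_ (pow_nonneg hlog0 m)
    have h0 : 0 ≤ (L : ℝ) ^ 2 * (K : ℝ) ^ (-((2 : ℕ) / 2 : ℝ)) := by positivity
    linarith

end Pool.Agent.H230.MS.CIGt
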