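import Pool.Agent.H961.T3.Stm5
import Pool.Graph.R_pool_sql_team_seeded_3997aac3.Q190.L2.Krt
import Pool.Graph.R_pool_sql_team_seeded_3997aac3.Q295.PL.All

/-!
# Project MS (helper961), S_KP: pointwise kernel bound of several laps, `d ≥ 2` (helper230)

Extracted from `Q190/L2/Krt.lean`.
-/

set_option autoImplicit false

namespace Pool.Agent.H230.MS.KPt

open Finset Equiv Matrix Q292.LC Q295.PL Pool.Agent.Q257.LC Pool.Agent.Q190.L2
open Pool.Agent.H961.T2 Pool.Agent.H961.T3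

theorem kp_of (hLPM : S_LPM) : S_KP := by
  have hB1 : S_BAS1 := Pool.Agent.Q68.LC.bas1
  have hB2 : S_BAS2 := Pool.Agent.Q68.LC.bas2
  have hSUB : S_SUB := Pool.Agent.Q277.LC.sub
  have hREV : S_REV := Pool.Agent.Q187.LC.Rev.rev
  intro d hd
  obtain ⟨Cl, ml, hCl, hlap⟩ := hLPM d hd
  have hd1 : 1 ≤ d := by omega
  refine ⟨Cl + 3, ml + 2, by omega, ?_⟩
  intro Z hZ L K lam r ρ κ₀ _ hlam hρ hκ hr hL hK
  obtain ⟨n1', n2, n3, n4, n5, n6, hL3, n8, n9, n10⟩ :=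
    ker_nat Z ml r ρ K L (by omega) hρ hr hL hK
  have n1 : Z ^ ml ≤ r := n1'.trans (Nat.sub_le r ρ)
  obtain ⟨q1, hq1⟩ := hlap Z (by omega) L K lam r ρ κ₀ hlam hρ hκ n1 n3 n4
  obtain ⟨q2, hq2⟩ := hlap Z (by omega) L (K / 2) lam r ρ κ₀ hlam hρ hκ n1 n3 n5
  obtain ⟨q3, hq3⟩ := hlap Z (by omega) L (K - K / 2) lam r ρ κ₀ hlam hρ hκ n1
    n3 n6
  refine ⟨q1 + q2 + q3 + 2, ?_⟩
  intro q hq σ hσ δ h1 h2 ω R hEv U x y hUR hxR k
  have hqr : (2 : ℝ) ≤ q := by
    have : 2 ≤ q := by omega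
    exact_mod_cast this
  have hδ : 0 < δ := by
    by_contra h
    push Not at h
    nlinarith
  have hδ1 : δ ≤ 1 := by nlinarith
  obtain ⟨hσr, hEvr, hTr⟩ := hREV d L hd1 hL3 σ hσ q K lam r ρ κ₀ ω R δ
  have hB := hB2 _ (ed ∘ σ) ω R δ hδ.le hδ1
  obtain ⟨T, hT⟩ : ∃ T, T = TT (ed ∘ σ) ω R δ (K * (q * ms d L)) := ⟨_, rfl⟩
  obtain ⟨R', hR'⟩ : ∃ R', R' = R.image (gp (ed ∘ σ) ω (K * (q * ms d L))) := ⟨_, rfl⟩
  have hT0 : ∀ x y, 0 ≤ T x y := by
    rw [hT]
    exact hB.1 _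
  have hz : ∀ a, a ∉ R → ∀ b ∈ R', T a b = 0 := by
    rw [hT, hR']
    exact hB.2.2.2.2.1 _
  have hL0 : (0 : ℝ) < L := by
    have : 0 < L := by omega
    exact_mod_cast this
  have hLd : (0 : ℝ) < (L : ℝ) ^ d := by positivity
  have hK0 : (0 : ℝ) < K := by exact_mod_cast n10
  have hZ0 : (3 : ℝ) ≤ Z := by
    have : 3 ≤ Z := by omega
    exact_mod_cast this
  obtain ⟨c, hc⟩ : ∃ c : ℝ, c = (Z : ℝ) ^ ml := ⟨_, rfl⟩
  have hc0 : 0 ≤ c := by
    rw [hc]
    positivity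
  rw [← hT]
  by_cases hy : y ∈ R'
  · rw [pow_zero_col T R R' U hUR hz k x hxR y hy]
    positivity
  · -- the kernel of all powers
    have hUR2 : Disjoint (U \ R') R := disjoint_of_subset_left sdiff_subset hUR
    have hUR3 : Disjoint (U \ R') R' := sdiff_disjoint
    have hfin : (T * (dg U * T) ^ k) x y ≤
        c * (3 / (((k : ℝ) + 1) * K) + 1 / (L : ℝ) ^ d) := by
      have hW0 : 0 ≤ c * (3 / (((k : ℝ) + 1) * K) + 1 / (L : ℝ) ^ d) := by positivity
      rcases Nat.eq_zero_or_pos k with hk | hk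
      · subst hk
        rw [pow_zero, Matrix.mul_one]
        -- two halves
        obtain ⟨K1, hK1⟩ : ∃ K1, K1 = K / 2 := ⟨_, rfl⟩
        obtain ⟨K2, hK2⟩ : ∃ K2, K2 = K - K / 2 := ⟨_, rfl⟩
        have hKK : K = K1 + K2 := by omega
        obtain ⟨T1, hT1⟩ : ∃ T1, T1 = TT (ed ∘ σ) ω R δ (K1 * (q * ms d L)) := ⟨_, rfl⟩
        obtain ⟨ω1, hω1⟩ : ∃ ω1 : ℕ → Bool, ω1 = sh (K1 * (q * ms d L)) ω := ⟨_, rfl⟩
        obtain ⟨R1, hR1⟩ : ∃ R1, R1 = R.image (gp (ed ∘ σ) ω (K1 * (q * ms d L))) := ⟨_, rfl⟩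
        obtain ⟨T2, hT2⟩ : ∃ T2, T2 = TT (ed ∘ σ) ω1 R1 δ (K2 * (q * ms d L)) := ⟨_, rfl⟩
        have hTT : T = T1 * T2 := by
          rw [hT, hT1, hT2, hω1, hR1, hKK]
          exact TT_units hB2 hσ ω R hδ.le hδ1 q K1 K2
        have hE1 : Ev σ q K1 lam r ρ κ₀ ω R := by
          have h4 := (hSUB d L hL3 σ hσ q K lam r ρ κ₀ ω R hEv 0 K1 (by omega)).2
          have h5 : sh (0 * (q * ms d L)) ω = ω := by
            funext k
            simp [sh]
          have h6 : R.image (gp (ed ∘ σ) ω (0 * (q * ms d L))) = R := by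
            rw [Nat.zero_mul]
            simp [gp]
          rw [h5, h6] at h4
          exact h4
        have hE2 : Ev σ q K2 lam r ρ κ₀ ω1 R1 := by
          rw [hω1, hR1]
          exact (hSUB d L hL3 σ hσ q K lam r ρ κ₀ ω R hEv K1 K2 (by omega)).2
        obtain ⟨-, hEvr2, hTr2⟩ := hREV d L hd1 hL3 σ hσ q K2 lam r ρ κ₀ ω1 R1 δ
        have hy2 : y ∉ R1.image (gp (ed ∘ σ) ω1 (K2 * (q * ms d L))) := by
          intro h7
          apply hy
          rw [hR1, image_image] at h7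
          rw [hR', hKK, add_mul, (hB1 _ (ed ∘ σ) ω).1, sh_ed hσ, ← hω1]
          obtain ⟨a, ha, hay⟩ := mem_image.1 h7
          exact mem_image.2 ⟨a, ha, hay⟩
        have f1 : ∑ z, (T1 x z) ^ 2 ≤ c * (1 / ((0 + 1 : ℕ) * (K1 : ℝ)) + 1 / (L : ℝ) ^ d) := by
          have h8 := hq2 q (by omega) σ hσ δ h1 h2 ω R (by rw [← hK1]; exact hE1) ∅ x
            (disjoint_empty_left R) hxR 0
          rw [← hK1, ← hT1, ← hc] at h8
          rw [pow_zero, Matrix.mul_one] at h8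
          exact h8
        have f2 : ∑ z, (T2 z y) ^ 2 ≤ c * (1 / ((0 + 1 : ℕ) * (K2 : ℝ)) + 1 / (L : ℝ) ^ d) := by
          have hE3 := hEvr2 hE2
          have h8 := hq3 q (by omega) (rvs σ) hσr δ h1 h2 _ _ (by rw [← hK2]; exact hE3) ∅ y
            (disjoint_empty_left _) hy2 0
          rw [← hK2, hTr2, ← hT2, ← hc] at h8
          rw [pow_zero, Matrix.mul_one] at h8
          exact h8
        rw [hTT, Matrix.mul_apply]
        refine cs_half _ _ _ _ f1 f2 _ hW0 ?_ ?_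
        · have hK10 : (0 : ℝ) < K1 := by
            have : 0 < K1 := by omega
            exact_mod_cast this
          apply mul_le_mul_of_nonneg_left _ hc0
          have h9 : (K : ℝ) ≤ 3 * K1 := by rw [hK1]; exact_mod_cast n8
          have h10 : 1 / (((0 + 1 : ℕ) : ℝ) * (K1 : ℝ)) ≤ 3 / ((((0 : ℕ) : ℝ) + 1) * K) := by
            rw [div_le_div_iff₀ (by positivity) (by positivity)]
            push_cast
            linarith
          linarith
        · have hK20 : (0 : ℝ) < K2 := by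
            have : 0 < K2 := by omega
            exact_mod_cast this
          apply mul_le_mul_of_nonneg_left _ hc0
          have h9 : (K : ℝ) ≤ 3 * K2 := by rw [hK2]; exact_mod_cast n9
          have h10 : 1 / (((0 + 1 : ℕ) : ℝ) * (K2 : ℝ)) ≤ 3 / ((((0 : ℕ) : ℝ) + 1) * K) := by
            rw [div_le_div_iff₀ (by positivity) (by positivity)]
            push_cast
            linarith
          linarith
      · rw [pow_eq_sdiff T R R' U hUR hz k x hxR y]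
        obtain ⟨i, j, hij, hi, hj⟩ : ∃ i j : ℕ, i + j + 1 = k ∧ k + 1 ≤ 3 * (i + 1) ∧
          k + 1 ≤ 3 * (j + 1) := ⟨(k - 1) / 2, k - 1 - (k - 1) / 2, by omega, by omega, by omega⟩
        have f1 := hq1 q (by omega) σ hσ δ h1 h2 ω R hEv (U \ R') x hUR2 hxR i
        rw [← hT, ← hc] at f1
        have f2 := hq1 q (by omega) (rvs σ) hσr δ h1 h2 _ _ (hEvr hEv) (U \ R') y
          (by rw [← hR']; exact hUR3) (by rw [← hR']; exact hy) j
        rw [hTr, ← hT, ← hc] at f2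
        rw [← hij, pow_split]
        have h3 : ∀ z, (T * (dg (U \ R') * T) ^ j) z y = (Tᵀ * (dg (U \ R') * Tᵀ) ^ j) y z := by
          intro z
          rw [← pow_transpose]
          rfl
        simp only [h3]
        rw [hij]
        refine cs_half _ _ (c * (1 / ((i + 1 : ℕ) * (K : ℝ)) + 1 / (L : ℝ) ^ d)) _ ?_ f2 _ hW0 ?_ ?_
        · refine le_trans (sum_le_sum fun z _ => ?_) f1
          split_ifs
          · exact le_rfl
          · rw [zero_pow two_ne_zero]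
            exact sq_nonneg _
        · exact row_to c hc0 K _ hK0 i k hi
        · exact row_to c hc0 K _ hK0 j k hj
    refine hfin.trans ?_
    have h5 : (0 : ℝ) ≤ c := hc0
    have h6 : (3 : ℝ) ≤ (Z : ℝ) ^ 2 := by nlinarith
    have e1 : (0 : ℝ) ≤ 1 / (((k : ℝ) + 1) * K) := by positivity
    have e2 : (0 : ℝ) ≤ 1 / (L : ℝ) ^ d := by positivity
    have e3 : 3 / (((k : ℝ) + 1) * K) = 3 * (1 / (((k : ℝ) + 1) * K)) := by ring
    rw [pow_add, ← hc, e3]
    calc c * (3 * (1 / (((k : ℝ) + 1) * K)) + 1 / (L : ℝ) ^ d)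
        ≤ c * (3 * (1 / (((k : ℝ) + 1) * K) + 1 / (L : ℝ) ^ d)) := by
          apply mul_le_mul_of_nonneg_left _ h5
          linarith
      _ = (c * 3) * (1 / (((k : ℝ) + 1) * K) + 1 / (L : ℝ) ^ d) := by ring
      _ ≤ (c * (Z : ℝ) ^ 2) * (1 / (((k : ℝ) + 1) * K) + 1 / (L : ℝ) ^ d) := by
          apply mul_le_mul_of_nonneg_right _ (by positivity)
          exact mul_le_mul_of_nonneg_left h6 h5

theorem kp : S_KP := kp_of (Pool.Agent.Q38.L2.lpm
  (Pool.Agent.Q38.L2.wir Pool.Agent.Q187.LC.Rev.rev Q295.PL.all_win) Q299.PL.nsh)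

end Pool.Agent.H230.MS.KPt
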